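import Pool.Agent.Helper14.BK.HemiU
import Pool.Agent.Helper52.Hemi.FinalIf
import Pool.Agent.Helper93.Hemi.Final
import Pool.Agent.Helper93.Hemi.Link
import Pool.Agent.Helper61.Hemi.EvalC
import Pool.Agent.Helper90.Hemi.K
import Pool.Agent.Helper83.Hemi.F1
import Pool.Agent.Helper83.Hemi.F3
import Pool.Agent.Helper40.Hemi2.F2w
import Pool.Agent.Helper24.Hemi.J
import Pool.Agent.Helper1.Hemi.LS

/-!
# MP_7aba51_co: hemisystems of `H(3, q^2)` with a cyclic group of order `q^2 - q + 1`

Let `q` be a prime power, `q ≡ 1 mod 4` and `q ≡ 0` or `2 mod 3`. Then the Hermitian surface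
`H(3, q^2)` has a hemisystem which is invariant under a cyclic subgroup of order `q^2 - q + 1` of
`PΓU(4, q)`. This is the affirmative answer to Q1, in the words of the problem file: lines,
generators and hemisystems are sets of points of `PG(3, q^2)`, the group is a subgroup of the
group of the collineations that map the surface onto itself, and every element of the subgroup
maps the hemisystem onto itself.

The definitions (`IsLine`, `surface`, `IsHemisystem`, `PGammaU`) are in
`Pool/Agent/Helper14/BK/HemiDefs.lean`; a field with `q^2` elements exists only if `q` is a prime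
power.
-/

set_option autoImplicit false

open scoped LinearAlgebra.Projectivization

namespace Pool.Agent.Results.MP_7aba51_co.CyclicHemisystems

open Pool.Agent.Helper14.HemiBK

universe u

theorem result (F : Type u) [Field F] [Fintype F] (q : ℕ) (hF : Fintype.card F = q ^ 2)
    (h4 : q % 4 = 1) (h3 : q % 3 = 0 ∨ q % 3 = 2) :
    ∃ ℋ : Set (Set (ℙ F (Fin 4 → F))), IsHemisystem F q ℋ ∧
      ∃ G : Subgroup (Equiv.Perm (ℙ F (Fin 4 → F))), G ≤ PGammaU F q ∧ IsCyclic G ∧
        Nat.card G = q ^ 2 - q + 1 ∧ ∀ σ ∈ G, (fun ℓ => σ '' ℓ) '' ℋ = ℋ := by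
  obtain ⟨S, g, τ, h1, h2, h5, h6, h7, h8, h9⟩ := data_univ (fun K _ _ q hK hq4 hq3 => by
    have hF1 := Pool.Agent.Helper83.Hemi.f1
    have hF3b := Pool.Agent.Helper83.Hemi.f3b
    have hK0 := Pool.Agent.Helper90.Hemi.k0 hF1 hF3b
    have hK1 := Pool.Agent.Helper90.Hemi.k1 hF3b
    have hE := Pool.Agent.Helper61.Hemi.goalEval hK0 hK1
    have hLS := Pool.Agent.Helper1.Hemi.goalLS hF1 Pool.Agent.Helper40.Hemi2.f2w
      Pool.Agent.Helper83.Hemi.f3a Pool.Agent.Helper24.Hemi.goalJ
    have hL := Pool.Agent.Helper93.Hemi.link hLS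
    exact Pool.Agent.Helper52.Hemi.main_of_goal (Pool.Agent.Helper93.Hemi.goalFun2_final hE hL)
      K q hK hq4 hq3) F q hF h4 h3
  exact bridge F q (by omega) S g τ h1 h2 h5 h6 h7 h8 h9

end Pool.Agent.Results.MP_7aba51_co.CyclicHemisystems
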